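import Pool.Agent.H603R2.W1
import Pool.Agent.H603R2.ClawEm
import Pool.Agent.H603R2.ClawInst

/-!
Claw-Free Contraction, parameterized by the number `k` of contracted edges, is `W[1]`-hard: there
is an fpt-reduction (in fact one computed in polynomial time) from `Clique`. Consequently it is not
fixed-parameter tractable unless `FPT = W[1]`.
-/

namespace Pool.Agent.Results.MP_7f80d9_lc.ClawFreeW1Hard

open Pool.Agent.H603R2

theorem budget_computable : Computable budget := by
  have mul : ∀ {a b : ℕ → ℕ}, Computable a → Computable b → Computable fun k => a k * b k :=
    fun ha hb => (Primrec.nat_mul.to_comp).comp ha hb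
  have add : ∀ {a b : ℕ → ℕ}, Computable a → Computable b → Computable fun k => a k + b k :=
    fun ha hb => (Primrec.nat_add.to_comp).comp ha hb
  exact add (mul (mul (Computable.const 2) Computable.id) Computable.id) Computable.id

/-- The fpt-reduction from `Clique` to Claw-Free Contraction. -/
theorem clique_reduces : FptReduces pClique (HFreeContraction claw) := by
  refine em_fptReduces clawEm clawEm_wf
    (fun x => ⟨dim x.k x.n, newGraph x.G x.k, budget x.k⟩) ?_ ?_ budget budget_computable ?_
  · intro x
    exact clawEm_out x.k x.n x.G
  · intro x
    exact (newGraph_correct x.G x.k).symm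
  · intro x
    exact le_rfl

/-- Claw-Free Contraction is `W[1]`-hard; hence if it is fixed-parameter tractable, then so is
every problem in `W[1]`. -/
theorem result : W1Hard (HFreeContraction claw) ∧
    (FPT (HFreeContraction claw) → ∀ P : ParamProblem, W1 P → FPT P) := by
  have h : W1Hard (HFreeContraction claw) := fun P hP => hP.trans clique_reduces
  exact ⟨h, fun hF P hP => (h P hP).fpt hF⟩

end Pool.Agent.Results.MP_7f80d9_lc.ClawFreeW1Hard
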